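import Pool.Agent.H200C.Stm3
import Pool.Agent.Q285.PK.Leaf

/-! # Job CH-LEAFA of helper200's project: the corank of a leaf, with windows.

Adapted by helper299 from `Pool/Agent/Q285/PK/Leaf.lean` (helper285). -/

set_option autoImplicit false

namespace Pool.Agent.Q299.CH

open Finset Pool.Agent.TH176.Nag Pool.Agent.TH603.Sur Pool.Agent.TH2.NU Pool.Agent.TH641.UM
open Pool.Agent.Y205.FW Pool.Agent.Y205.MD Pool.Agent.H200W Pool.Agent.H200P Pool.Agent.H200C
open Pool.Agent.Q111.WR (list_cast list_mul condM_lf crkM_zero crkM_sur crkM_mono HX_mono list_sum_le)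
open Pool.Agent.Q285.PK (two_condM card_zero_real)

theorem leafA : S_LeafA := by
  intro h d K V N a R hh hW hV hR hbig
  obtain ⟨L, hL, hsum, hS, hE⟩ := p_units V N a R (by linarith) hV hR hbig
  set M := lf V N a R with hM
  have hsum' : (L.map fun x => x.1).sum = M := hsum
  set A : ℝ := 2 * (TH2.NU.condM M : ℝ) with hA
  set Z : ℝ := E0 V N a R with hZ
  have hZ0 : 0 ≤ Z := by
    rw [hZ]; unfold E0
    have : 0 ≤ (R.map fun x => (x.1 : ℝ) * ((x.2 : ℝ) + 1)).sum := List.sum_nonneg (by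
      intro y hy
      obtain ⟨x, _, rfl⟩ := List.mem_map.mp hy
      positivity)
    have h2 : 0 ≤ ∑ v ∈ V, (N v : ℝ) * ((a v : ℝ) + 1) :=
      Finset.sum_nonneg fun v _ => by positivity
    linarith
  have hAeq : A = ∑ v ∈ V, (N v : ℝ) * (a v * ((a v : ℝ) + 1)) +
      (R.map fun x => (x.1 : ℝ) * (x.2 * ((x.2 : ℝ) + 1))).sum := by
    rw [hA, hM, condM_lf, Nat.cast_add, list_cast, Nat.cast_sum, mul_add, Finset.mul_sum,
      ← list_mul]
    congr 1
    · refine Finset.sum_congr rfl fun v _ => ?_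
      rw [Nat.cast_mul, choose_real]; ring
    · refine congrArg List.sum (List.map_congr_left fun x _ => ?_)
      rw [Nat.cast_mul, choose_real]; ring
  have list_add : ∀ (f g : ℕ × ℕ → ℝ), (R.map fun x => f x + g x).sum =
      (R.map f).sum + (R.map g).sum := by
    intro f g
    induction R with
    | nil => simp
    | cons x R ih =>
      clear * -
      have : ∀ R : List (ℕ × ℕ), (R.map fun x => f x + g x).sum =
          (R.map f).sum + (R.map g).sum := by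
        intro R
        induction R with
        | nil => simp
        | cons x R ih => simp only [List.map_cons, List.sum_cons]; rw [ih]; ring
      exact this _
  have hSle : (L.map fun x => x.2.1).sum ≤ A + Z := by
    refine hS.trans ?_
    rw [hAeq, hZ]
    unfold E0
    have e1 : ∑ v ∈ V, ((N v : ℝ) * ((a v : ℝ) + 1) ^ 2 + (N v : ℝ) * ((a v : ℝ) + 1) / 2) =
        ∑ v ∈ V, (N v : ℝ) * (a v * ((a v : ℝ) + 1)) +
          3 / 2 * ∑ v ∈ V, (N v : ℝ) * ((a v : ℝ) + 1) := by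
      rw [Finset.mul_sum, ← Finset.sum_add_distrib]
      exact Finset.sum_congr rfl fun v _ => by ring
    have e2 : (R.map fun x => (x.1 : ℝ) * ((x.2 : ℝ) + 1) ^ 2).sum =
        (R.map fun x => (x.1 : ℝ) * (x.2 * ((x.2 : ℝ) + 1))).sum +
          (R.map fun x => (x.1 : ℝ) * ((x.2 : ℝ) + 1)).sum := by
      rw [← list_add]
      exact congrArg List.sum (List.map_congr_left fun x _ => by ring)
    rw [e1, e2]
    linarith
  have hEge : A - Z ≤ (L.map fun x => x.2.2).sum := by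
    refine le_trans ?_ hE
    rw [hAeq, hZ]
    unfold E0
    have e1 : ∑ v ∈ V, (N v : ℝ) * (a v * ((a v : ℝ) + 1)) -
        3 / 2 * ∑ v ∈ V, (N v : ℝ) * ((a v : ℝ) + 1) ≤
        ∑ v ∈ V, ((N v : ℝ) * (a v : ℝ) ^ 2 - (N v : ℝ) * ((a v : ℝ) + 1) / 2) := by
      rw [Finset.mul_sum, ← Finset.sum_sub_distrib]
      refine Finset.sum_le_sum fun v _ => ?_
      have : 0 ≤ (N v : ℝ) := by positivity
      nlinarith
    have e2 : (R.map fun x => (x.1 : ℝ) * (x.2 * ((x.2 : ℝ) + 1))).sum ≤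
        (R.map fun x => (x.1 : ℝ) * (x.2 : ℝ) ^ 2).sum +
          (R.map fun x => (x.1 : ℝ) * ((x.2 : ℝ) + 1)).sum := by
      rw [← list_add]
      refine list_sum_le R _ _ fun x _ => ?_
      have : 0 ≤ (x.1 : ℝ) := by positivity
      nlinarith
    linarith
  -- the two tools
  have hh0 : 0 < h := by linarith
  have hA0 : 0 ≤ A := by rw [hA]; positivity
  obtain ⟨X, hX⟩ : ∃ X : ℕ → ℝ, X = fun n => 2 * ((HX 0 0 0 n).card : ℝ) - 2 * (TH2.NU.condM K : ℝ) :=
    ⟨_, rfl⟩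
  have hW' : ∀ f : ℕ, ∃ Λ : ℝ, d ≤ f → (0 ≤ Λ ∧ Λ + 2 * (f + 2) ≤ X f / (64 * h) ∧
      GoodSK K h (1024 * h ^ 2) (↑(HX 0 0 0 f) : Set (ℤ × ℤ)) (X f - Λ) ∧
      GoodEK K h (1024 * h ^ 2) (↑(HX 0 0 0 f) : Set (ℤ × ℤ)) (X f + Λ)) := by
    intro f
    by_cases hf : d ≤ f
    · obtain ⟨Λ, h1, h2, h3, h4⟩ := hW f hf
      rw [hX]
      exact ⟨Λ, fun _ => ⟨h1, h2, h3, h4⟩⟩
    · exact ⟨0, fun h => absurd h hf⟩
  choose Lm hLm using hW'
  have toolE : ∀ n : ℕ, d ≤ n → X n + Lm n ≤ A - Z →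
      EmpM (K + M) (↑(HX 0 0 0 n) : Set (ℤ × ℤ)) := by
    intro n hn hc
    have hw := (hLm n hn).2.2.2
    have := hw (L.map fun x => (x.1, x.2.2)) ?_ ?_
    · rw [List.map_map] at this
      have e : (Prod.fst ∘ fun x : Multiset ℕ × ℝ × ℝ => (x.1, x.2.2)) = fun x => x.1 := rfl
      rw [e, hsum'] at this
      exact this
    · intro y hy
      obtain ⟨x, hx, rfl⟩ := List.mem_map.mp hy
      obtain ⟨-, h2, -, -, h5, h6⟩ := hL x hx
      exact ⟨h2, h5, h6⟩
    · rw [List.map_map]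
      exact hc.trans hEge
  have toolS : ∀ n : ℕ, d ≤ n → A + Z ≤ X n - Lm n →
      SurM (K + M) (↑(HX 0 0 0 n) : Set (ℤ × ℤ)) := by
    intro n hn hc
    have hw := (hLm n hn).2.2.1.2
    have := hw (L.map fun x => (x.1, x.2.1)) ?_ ?_
    · rw [List.map_map] at this
      have e : (Prod.fst ∘ fun x : Multiset ℕ × ℝ × ℝ => (x.1, x.2.1)) = fun x => x.1 := rfl
      rw [e, hsum'] at this
      exact this
    · intro y hy
      obtain ⟨x, hx, rfl⟩ := List.mem_map.mp hy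
      obtain ⟨h2, -, h5, h6, -, -⟩ := hL x hx
      exact ⟨h2, h5, h6⟩
    · rw [List.map_map]
      exact hSle.trans hc
  have hcond : (TH2.NU.condM (K + M) : ℝ) = TH2.NU.condM K + TH2.NU.condM M := by
    rw [TH2.NU.condM_add, Nat.cast_add]
  -- the estimates
  have hXval : ∀ n : ℕ, X n = ((n : ℝ) + 1) * (n + 2) -
      (K.map fun m : ℕ => (m : ℝ) * (m + 1)).sum := fun n => by
    rw [hX, ← two_condM, ← card_zero_real]
  have hLm0 : ∀ n : ℕ, d ≤ n → 0 ≤ Lm n := fun n hn => (hLm n hn).1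
  have hLmX : ∀ n : ℕ, d ≤ n → (Lm n + 2 * (n + 2)) * (64 * h) ≤ X n := fun n hn => by
    have := (hLm n hn).2.1
    rwa [le_div_iff₀ (by positivity)] at this
  have hhalf : ∀ n : ℕ, d ≤ n → 2 * Lm n ≤ X n := fun n hn => by
    have h1 := hLmX n hn
    have h2 := hLm0 n hn
    have h3 : (0 : ℝ) ≤ n := Nat.cast_nonneg _
    have h4 : (Lm n + 2 * (n + 2)) * 2 ≤ (Lm n + 2 * (n + 2)) * (64 * h) :=
      mul_le_mul_of_nonneg_left (by linarith) (by linarith)
    linarith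
  obtain ⟨ζ, hζ⟩ : ∃ ζ : ℝ, ζ = (A + Z) / (32 * h) := ⟨_, rfl⟩
  have hζeq : ζ * (32 * h) = A + Z := by
    rw [hζ]
    exact div_mul_cancel₀ _ (by positivity)
  have hsmall : ∀ n : ℕ, d ≤ n → X n - Lm n < A + Z → Lm n + 2 * ((n : ℝ) + 2) ≤ ζ := by
    intro n hn hc
    have h1 := hLmX n hn
    have h2 := hhalf n hn
    have h3 : X n ≤ 2 * (A + Z) := by linarith
    have h4 : (Lm n + 2 * ((n : ℝ) + 2)) * (64 * h) ≤ ζ * (64 * h) := by
      have : ζ * (64 * h) = 2 * (A + Z) := by rw [← hζeq]; ring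
      rw [this]
      exact h1.trans h3
    exact le_of_mul_le_mul_right h4 (by positivity)
  rw [← hζ]
  by_cases c1 : X d + Lm d ≤ A - Z
  · left
    exact crkM_zero (toolE d le_rfl c1)
  right
  by_cases c2 : A + Z ≤ X d - Lm d
  · left
    exact crkM_sur (toolS d le_rfl c2)
  right
  push Not at c1 c2
  have hXd : X d = 2 * ((HX 0 0 0 d).card : ℝ) - 2 * (TH2.NU.condM K : ℝ) := by rw [hX]
  constructor
  · have h1 := hsmall d le_rfl c2
    have h2 : (0 : ℝ) ≤ d := Nat.cast_nonneg _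
    rw [hcond, mul_add, ← hA]
    linarith
  -- a large degree which is good
  have hex : ∃ n : ℕ, A + Z ≤ X (d + n) - Lm (d + n) := by
    obtain ⟨n, hn⟩ := exists_nat_ge (A + Z)
    refine ⟨n, ?_⟩
    have e1 := hLmX (d + n) (Nat.le_add_right d n)
    have e2 := hLm0 (d + n) (Nat.le_add_right d n)
    have e5 : (n : ℝ) ≤ ((d + n : ℕ) : ℝ) := by
      push_cast
      have : (0 : ℝ) ≤ d := Nat.cast_nonneg _
      linarith
    have e6 : (0 : ℝ) ≤ n := Nat.cast_nonneg _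
    have e7 : (Lm (d + n) + 2 * (((d + n : ℕ) : ℝ) + 2)) * 1 ≤
        (Lm (d + n) + 2 * (((d + n : ℕ) : ℝ) + 2)) * (64 * h) :=
      mul_le_mul_of_nonneg_left (by linarith) (by linarith)
    linarith
  classical
  obtain ⟨n0, hn0, hmin⟩ : ∃ n0 : ℕ, A + Z ≤ X (d + n0) - Lm (d + n0) ∧
      ∀ m < n0, ¬ (A + Z ≤ X (d + m) - Lm (d + m)) :=
    ⟨Nat.find hex, Nat.find_spec hex, fun m hm => Nat.find_min hex hm⟩
  have hn0pos : n0 ≠ 0 := by
    intro h0
    rw [h0, Nat.add_zero] at hn0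
    linarith
  obtain ⟨k, rfl⟩ := Nat.exists_eq_succ_of_ne_zero hn0pos
  have hk := hmin k (Nat.lt_succ_self k)
  push Not at hk
  obtain ⟨e, he⟩ : ∃ e : ℕ, e = d + k := ⟨_, rfl⟩
  have hde : d ≤ e := by omega
  rw [← he] at hk
  have he1 : d + k.succ = e + 1 := by omega
  rw [he1] at hn0
  have hsur := toolS (e + 1) (by omega) hn0
  have h1 := crkM_sur hsur
  have h2 := crkM_mono (HX_mono (M1 := 0) (M2 := 0) (M3 := 0) (show d ≤ e + 1 by omega)) (K + M)
  have h3 : ((crkM (HX 0 0 0 d) (K + M) : ℕ) : ℝ) + (TH2.NU.condM (K + M) : ℝ) ≤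
      ((HX 0 0 0 (e + 1)).card : ℝ) := by
    exact_mod_cast (Nat.add_le_add_right h2 _).trans h1
  have h4 := hsmall e hde hk
  have h5 := hXval e
  have h6 := card_zero_real (e + 1)
  have h7 := two_condM K
  push_cast at h6
  rw [hcond] at h3
  nlinarith

end Pool.Agent.Q299.CH
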