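import Pool.Agent.H200C.Stm3

/-! # Job CH-TWO of helper200's project: two curves. By helper299. -/

set_option autoImplicit false

namespace Pool.Agent.Q299.CH

open Finset Pool.Agent.TH176.Nag Pool.Agent.TH603.Sur Pool.Agent.TH2.NU Pool.Agent.TH641.UM
open Pool.Agent.Y205.FW Pool.Agent.Y205.MD Pool.Agent.H200W Pool.Agent.H200P
open Pool.Agent.H932R3 Pool.Agent.W609.CR Pool.Agent.H200C

/-- the sum of the degrees -/
theorem sum_two (e h m : ℕ) :
    ∑ j ∈ range m, (if j < h then e else 1) = e * min m h + (m - h) := by
  induction m with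
  | zero => simp
  | succ m ih =>
    rw [sum_range_succ, ih]
    split_ifs with hm
    · rw [min_eq_left hm.le, min_eq_left (show m + 1 ≤ h by omega), Nat.sub_eq_zero_of_le hm.le,
        Nat.sub_eq_zero_of_le (show m + 1 ≤ h by omega)]
      ring
    · rw [min_eq_right (by omega), min_eq_right (by omega)]
      omega

/-- **Job CH-TWO.** -/
theorem two : S_Two := by
  intro n d e h μ s w p A hp he hμ hw hs H1 H2 H3 H4 H5
  have hE0 : (if 0 < h then e else 1) ≤ e := by split_ifs <;> omega
  refine ⟨p, A, fun k => if k < h then e else 1, A.sup w, μ, s, hp, ?_, ?_, hμ, ?_, hw, hs, ?_, ?_,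
    H5⟩
  · intro a b hab
    simp only
    split_ifs <;> omega
  · intro k
    simp only
    split_ifs <;> omega
  · intro i hi
    exact Finset.le_sup hi
  · simp only
    rw [sum_two]
    have h1 : 2 ^ 27 * (μ + 1) * (if 0 < h then e else 1) ≤ 2 ^ 27 * (μ + 1) * e :=
      Nat.mul_le_mul_left _ hE0
    rcases Nat.lt_or_ge h (A.sup w) with hm | hm
    · have hA : A.Nonempty := by
        rw [Finset.nonempty_iff_ne_empty]
        rintro rfl
        simp at hm
      obtain ⟨i, hi, hiw⟩ := Finset.exists_mem_eq_sup A hA w
      have h2 := H2 i hi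
      rw [← hiw] at h2
      rw [min_eq_right hm.le]
      omega
    · rw [min_eq_left hm, Nat.sub_eq_zero_of_le hm]
      have h2 : e * A.sup w ≤ e * h := Nat.mul_le_mul_left _ hm
      omega
  · intro k hk hst
    simp only at hst ⊢
    rw [sum_two]
    rcases Nat.eq_zero_or_pos k with hk0 | hk0
    · subst hk0
      rcases Nat.eq_zero_or_pos h with hh | hh
      · subst hh
        simp only [lt_irrefl, if_false, Nat.zero_min, Nat.mul_zero, Nat.sub_zero, Nat.sub_self,
          Nat.add_zero, Nat.one_mul, Nat.mul_one, Nat.zero_add] at H3 ⊢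
        refine le_trans ?_ H3
        gcongr
      · rw [if_pos hh]
        simp only [Nat.zero_min, Nat.mul_zero, Nat.sub_zero, Nat.zero_sub, Nat.add_zero,
          Nat.zero_add] at H4 ⊢
        refine le_trans (le_of_eq ?_) H4
        ring
    · have hkh : k = h := by
        rcases hst with hst | hst
        · omega
        · split_ifs at hst <;> omega
      subst hkh
      rw [if_neg (lt_irrefl k), if_pos hk0, min_self, Nat.sub_self]
      simp only [Nat.add_zero, Nat.one_mul, Nat.mul_one]
      refine le_trans (le_of_eq ?_) H3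
      ring

end Pool.Agent.Q299.CH
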